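import Mathlib
import Pool.Agent.Y668.MQ.Base

/-!
# Moments of ranks over multiquadratic fields: curves with one rational point of order two

`E : y² = x³ + A x + B` is an elliptic curve over `ℚ` with a rational point `(e, 0)` of order two,
`D₀`, `D₁`, ..., `D_s` are nonzero polynomials with integer coefficients, `F_t` is the field
`ℚ(√D₁(t), ..., √D_s(t))` and `W_t` is the quadratic twist of `E` by `D₀(t)`, over `F_t`. If
`(3e² + A)(-3e² - 4A)` is a square modulo the irreducible factors of odd multiplicity of the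
products of `D₀` and some of the `D_i`, then all the moments of `2 ^ rank W_t(F_t)` are bounded
(`result`). For constant `D₁`, ..., `D_s` the field is a fixed multiquadratic field and the condition
is on `D₀` only (`fixed_field`); for `D₀ = t` and `(3e² + A)(-3e² - 4A)` a square one gets all the
quadratic twists by integers (`all_twists`).
-/

set_option autoImplicit false

namespace Pool.Agent.Results.MP_7cad78_nt.MultiquadraticTwistMoments

open Finset Polynomial

/-- the curve `y² = x³ + A x + B` over `F` -/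
def EF (A B : ℤ) (F : Type) [Field F] : WeierstrassCurve F := ⟨0, 0, 0, (A : F), (B : F)⟩

/-- the Mordell-Weil rank of the curve `W` -/
noncomputable def rk {F : Type} [Field F] (W : WeierstrassCurve F) : ℕ := by
  classical
  exact Module.finrank ℤ W.toAffine.Point

/-- the number field `F` is generated by square roots of the integers `d i` -/
def Gen (F : Type) [Field F] [NumberField F] {s : ℕ} (d : Fin s → ℤ) : Prop :=
  ∃ x : Fin s → F, (∀ i, x i ^ 2 = (d i : F)) ∧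
    IntermediateField.adjoin ℚ (Set.range x) = ⊤

/-- the integers `t` with `N < t ≤ N + M` that are not zeros of the polynomials -/
noncomputable def Par {s : ℕ} (D₀ : ℤ[X]) (D : Fin s → ℤ[X]) (N : ℤ) (M : ℕ) : Finset ℤ := by
  classical
  exact (Ioc N (N + M)).filter (fun t => D₀.eval t ≠ 0 ∧ ∀ i, (D i).eval t ≠ 0)

/-- **Theorem.** Let `E : y² = x³ + A x + B` be an elliptic curve with the rational point `(e, 0)`
of order two, let `D₀`, `D₁`, ..., `D_s` be nonzero polynomials with integer coefficients such that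
`(3e² + A)(-3e² - 4A)` is a square modulo each irreducible polynomial of odd multiplicity in a
product of `D₀` and some of the `D₁`, ..., `D_s`. Let `F t = ℚ(√D₁(t), ..., √D_s(t))`. Then for all
`k` and `L` there is `C` such that for all integers `M ≥ 1` and `|N| ≤ M ^ L` and the `t` with
`N < t ≤ N + M`, not a zero of the polynomials: the sum of `2 ^ (k rank E^{D₀(t)}(F t))` is at most
`C M`, and at most `C M / 2 ^ (k n)` of the `t` have `rank E^{D₀(t)}(F t) ≥ n`. -/
theorem result (A B e : ℤ) (he : e ^ 3 + A * e + B = 0) (hΔ : 4 * A ^ 3 + 27 * B ^ 2 ≠ 0)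
    (s : ℕ) (D₀ : ℤ[X]) (hD₀ : D₀ ≠ 0) (D : Fin s → ℤ[X]) (hD : ∀ i, D i ≠ 0)
    (hsq : ∀ T : Finset (Fin s), ∀ f : ℚ[X], Irreducible f →
      Odd (multiplicity f ((D₀ * ∏ i ∈ T, D i).map (Int.castRingHom ℚ))) →
      ∃ q : ℚ[X], f ∣ q ^ 2 - C (((3 * e ^ 2 + A) * (-3 * e ^ 2 - 4 * A) : ℤ) : ℚ)) (k L : ℕ) :
    ∃ c : ℝ, ∀ (N : ℤ) (M : ℕ), 1 ≤ M → |N| ≤ (M : ℤ) ^ L →
      ∀ (F : ℤ → Type) [∀ t, Field (F t)] [∀ t, NumberField (F t)],
      (∀ t ∈ Par D₀ D N M, Gen (F t) (fun i => (D i).eval t)) →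
      ∑ t ∈ Par D₀ D N M,
        ((2 : ℝ) ^ rk (EF (D₀.eval t ^ 2 * A) (D₀.eval t ^ 3 * B) (F t))) ^ k ≤ c * M ∧
      ∀ n : ℕ, (((Par D₀ D N M).filter
        (fun t => n ≤ rk (EF (D₀.eval t ^ 2 * A) (D₀.eval t ^ 3 * B) (F t)))).card : ℝ) ≤
          c * M / 2 ^ (k * n) := by
  classical
  have hA : (3 * e ^ 2 + A) * (-3 * e ^ 2 - 4 * A) ≠ 0 := by
    intro h
    apply hΔ
    have h1 : B = -e ^ 3 - A * e := by linarith
    have h2 : 4 * A ^ 3 + 27 * B ^ 2 = -((3 * e ^ 2 + A) ^ 2 * (-3 * e ^ 2 - 4 * A)) := by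
      rw [h1]
      ring
    rw [h2]
    rcases mul_eq_zero.1 h with h | h <;> rw [h] <;> ring
  have hb : 3 * e ^ 2 + A ≠ 0 := left_ne_zero_of_mul hA
  have hab : (3 * e) ^ 2 - 4 * (3 * e ^ 2 + A) ≠ 0 := by
    have := right_ne_zero_of_mul hA
    intro h
    apply this
    linarith
  have hab' : (3 * e) ^ 2 - 4 * (3 * e ^ 2 + A) = -3 * e ^ 2 - 4 * A := by ring
  rw [← hab'] at hsq
  obtain ⟨c, hc⟩ := Pool.Agent.Y668.MQ.mq_sum s (fun i t => (D i).eval t)
    (fun t => D₀.eval t ^ 2 * A) (fun t => D₀.eval t ^ 3 * B) (fun t => D₀.eval t * e)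
    (fun t => D₀.eval t ≠ 0 ∧ ∀ i, (D i).eval t ≠ 0) (fun t ht => ht.2)
    (fun t _ => by
      linear_combination (D₀.eval t) ^ 3 * he)
    (fun t ht h5 => by
      have h6 : (D₀.eval t) ^ 6 * (4 * A ^ 3 + 27 * B ^ 2) = 0 := by
        linear_combination h5
      exact hΔ ((mul_eq_zero.1 h6).resolve_left (pow_ne_zero 6 ht.1))) k L
    (fun T => by
      obtain ⟨c, hc⟩ := Pool.Agent.Y668.quad_moments hb hab (D₀ * ∏ i ∈ T, D i)
        (mul_ne_zero hD₀ (prod_ne_zero_iff.2 fun i _ => hD i)) (hsq T) (2 ^ s * k) L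
      refine ⟨c, fun N M hM hN => le_trans ?_ (hc N M hM hN)⟩
      refine le_trans (le_of_eq ?_) (sum_le_sum_of_subset_of_nonneg
        (s := (Ioc N (N + M)).filter (fun t => D₀.eval t ≠ 0 ∧ ∀ i, (D i).eval t ≠ 0)) ?_
        (fun t _ _ => by positivity))
      · refine sum_congr (by ext t; simp) fun t ht => ?_
        congr 2
        have h7 : ((D₀ * ∏ i ∈ T, D i).eval t) = D₀.eval t * ∏ i ∈ T, (D i).eval t := by
          rw [eval_mul, eval_prod]
        set u := (D₀ * ∏ i ∈ T, D i).eval t with hu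
        have h8 : (u * e) ^ 3 + (u ^ 2 * A) * (u * e) + u ^ 3 * B = 0 := by
          linear_combination u ^ 3 * he
        obtain ⟨φ⟩ := Pool.Agent.Y668.MQ.iso_sh h8
        have h9 : (∏ i ∈ T, (D i).eval t) ^ 2 * (D₀.eval t ^ 2 * A) = u ^ 2 * A := by
          rw [h7]
          ring
        have h10 : (∏ i ∈ T, (D i).eval t) ^ 3 * (D₀.eval t ^ 3 * B) = u ^ 3 * B := by
          rw [h7]
          ring
        rw [h9, h10]
        have h11 := φ.toIntLinearEquiv.finrank_eq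
        have h12 : Pool.Agent.Y668.W2 (3 * (u * e)) (3 * (u * e) ^ 2 + u ^ 2 * A) =
            Pool.Agent.Y668.W2 (3 * e * u) ((3 * e ^ 2 + A) * u ^ 2) := by
          congr 1 <;> ring
        rw [h12] at h11
        convert h11
      · intro t ht
        rw [mem_filter] at ht ⊢
        refine ⟨ht.1, ?_⟩
        rw [eval_mul, eval_prod]
        exact mul_ne_zero ht.2.1 (prod_ne_zero_iff.2 fun i _ => ht.2.2 i))
  refine ⟨c, fun N M hM hN F _ _ hF => ?_⟩
  have hPar : Par D₀ D N M =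
      (Ioc N (N + M)).filter (fun t => D₀.eval t ≠ 0 ∧ ∀ i, (D i).eval t ≠ 0) := by
    unfold Par
    congr
  have h1 := hc N M hM hN F (fun t ht => hF t (by rw [hPar]; convert ht))
  have h2 : ∑ t ∈ Par D₀ D N M,
      ((2 : ℝ) ^ rk (EF (D₀.eval t ^ 2 * A) (D₀.eval t ^ 3 * B) (F t))) ^ k ≤ c * M := by
    rw [hPar]
    convert h1
    rfl
  refine ⟨h2, fun n => ?_⟩
  rw [le_div_iff₀ (by positivity)]
  refine le_trans ?_ h2
  rw [← nsmul_eq_mul, ← sum_const]
  refine (sum_le_sum (fun t ht => ?_)).trans (sum_le_sum_of_subset_of_nonneg (filter_subset _ _)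
      (fun t _ _ => by positivity))
  rw [mem_filter] at ht
  rw [mul_comm k n, pow_mul]
  exact pow_le_pow_left₀ (by positivity) (pow_le_pow_right₀ (by norm_num) ht.2) k

lemma mult_const (c : ℤ) (hc : c ≠ 0) (f : ℚ[X]) (D : ℤ[X]) :
    multiplicity f ((D * C c).map (Int.castRingHom ℚ)) =
      multiplicity f (D.map (Int.castRingHom ℚ)) := by
  have h : Associated ((D * C c).map (Int.castRingHom ℚ)) (D.map (Int.castRingHom ℚ)) := by
    have hu : IsUnit (C ((c : ℤ) : ℚ)) :=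
      Polynomial.isUnit_C.2 (isUnit_iff_ne_zero.2 (by exact_mod_cast hc))
    obtain ⟨u, hu⟩ := hu
    refine (Associated.symm ⟨u, ?_⟩)
    rw [hu, Polynomial.map_mul, Polynomial.map_C]
    rfl
  exact multiplicity_eq_of_associated_right h

/-- The case of a fixed multiquadratic field `F`: the condition is on `D` only. -/
theorem fixed_field (A B e : ℤ) (he : e ^ 3 + A * e + B = 0) (hΔ : 4 * A ^ 3 + 27 * B ^ 2 ≠ 0)
    (F : Type) [Field F] [NumberField F] (s : ℕ) (d : Fin s → ℤ) (hd : ∀ i, d i ≠ 0)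
    (hF : Gen F d) (D : ℤ[X]) (hD : D ≠ 0)
    (hsq : ∀ f : ℚ[X], Irreducible f → Odd (multiplicity f (D.map (Int.castRingHom ℚ))) →
      ∃ q : ℚ[X], f ∣ q ^ 2 - C (((3 * e ^ 2 + A) * (-3 * e ^ 2 - 4 * A) : ℤ) : ℚ)) (k L : ℕ) :
    ∃ c : ℝ, ∀ (N : ℤ) (M : ℕ), 1 ≤ M → |N| ≤ (M : ℤ) ^ L →
      ∑ t ∈ (Ioc N (N + M)).filter (fun t => D.eval t ≠ 0),
        ((2 : ℝ) ^ rk (EF (D.eval t ^ 2 * A) (D.eval t ^ 3 * B) F)) ^ k ≤ c * M := by
  classical
  obtain ⟨c, hc⟩ := result A B e he hΔ s D hD (fun i => C (d i)) (fun i => C_ne_zero.2 (hd i))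
    (fun T f hf ho => by
      refine hsq f hf ?_
      have h1 : ∏ i ∈ T, C (d i) = (C (∏ i ∈ T, d i) : ℤ[X]) := by
        rw [map_prod]
      rw [h1, mult_const _ (prod_ne_zero_iff.2 fun i _ => hd i)] at ho
      exact ho) k L
  refine ⟨c, fun N M hM hN => ?_⟩
  have h1 := (hc N M hM hN (fun _ => F) (fun t _ => by simpa using hF)).1
  have hPar : Par D (fun i => C (d i)) N M =
      (Ioc N (N + M)).filter (fun t => D.eval t ≠ 0) := by
    unfold Par
    ext t
    simp [hd]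
  rw [hPar] at h1
  exact h1

/-- All the quadratic twists by integers over a fixed multiquadratic field, when
`(3e² + A)(-3e² - 4A)` is a square. -/
theorem all_twists (A B e : ℤ) (he : e ^ 3 + A * e + B = 0) (hΔ : 4 * A ^ 3 + 27 * B ^ 2 ≠ 0)
    (hsq : IsSquare ((3 * e ^ 2 + A) * (-3 * e ^ 2 - 4 * A)))
    (F : Type) [Field F] [NumberField F] (s : ℕ) (d : Fin s → ℤ) (hd : ∀ i, d i ≠ 0)
    (hF : Gen F d) (k L : ℕ) :
    ∃ c : ℝ, ∀ (N : ℤ) (M : ℕ), 1 ≤ M → |N| ≤ (M : ℤ) ^ L →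
      ∑ t ∈ (Ioc N (N + M)).filter (fun t => t ≠ 0),
        ((2 : ℝ) ^ rk (EF (t ^ 2 * A) (t ^ 3 * B) F)) ^ k ≤ c * M := by
  obtain ⟨m, hm⟩ := hsq
  obtain ⟨c, hc⟩ := fixed_field A B e he hΔ F s d hd hF X X_ne_zero (fun f _ _ => ⟨C (m : ℚ), by
      rw [hm, Int.cast_mul, C_mul, sq, sub_self]
      exact dvd_zero f⟩) k L
  simp only [eval_X] at hc
  exact ⟨c, hc⟩

end Pool.Agent.Results.MP_7cad78_nt.MultiquadraticTwistMoments
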